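import Mathlib
import Pool.Agent.V11306.ToepW

/-!
# MP_e449c6, Q1: the determinant of order `(p-3)/2` with four parameters
-/

set_option autoImplicit false

namespace Pool.Agent.Results.MP_e449c6_nt.EveryPrime

open NumberField

/-- The value of the determinant of order `(p-3)/2` of
`[x + ((j-k)/p) + (j/p) y + (k/p) z + (jk/p) w]`, `0 ≤ j, k ≤ (p-5)/2`, for every prime `p ≥ 5`. -/
theorem result (p : ℕ) [Fact p.Prime] (hp : 5 ≤ p) (x y z w : ℂ) :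
    (p % 4 = 3 →
      (Matrix.of fun j k : Fin ((p - 3) / 2) => x + (legendreSym p ((j : ℤ) - (k : ℤ)) : ℂ) +
        (legendreSym p (j : ℤ) : ℂ) * y + (legendreSym p (k : ℤ) : ℂ) * z +
        (legendreSym p ((j : ℤ) * (k : ℤ)) : ℂ) * w).det = w * x + (1 + y) * (1 - z)) ∧
    (p % 4 = 1 →
      ∀ (K : Type) [Field K] [NumberField K], Module.finrank ℚ K = 2 → ∀ α : K, α ^ 2 = (p : K) →
      ∀ σ : K →+* ℝ, 0 < σ α → ∀ ε : (𝓞 K)ˣ, 1 < σ ((ε : 𝓞 K) : K) →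
      (∀ u : (𝓞 K)ˣ, ∃ n : ℤ, u = ε ^ n ∨ u = -ε ^ n) → ∀ a b : ℚ,
      ((ε : 𝓞 K) : K) ^ ((2 - legendreSym p 2) * (classNumber K : ℤ)) =
        algebraMap ℚ K a + algebraMap ℚ K b * α →
      (Matrix.of fun j k : Fin ((p - 3) / 2) => x + (legendreSym p ((j : ℤ) - (k : ℤ)) : ℂ) +
        (legendreSym p (j : ℤ) : ℂ) * y + (legendreSym p (k : ℤ) : ℂ) * z +
        (legendreSym p ((j : ℤ) * (k : ℤ)) : ℂ) * w).det =
        (legendreSym p 2 : ℂ) * (2 * (a : ℂ) - p * b) * x +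
          ((a : ℂ) - 2 * b) * ((1 + y) * (1 + z) - w * x)) := by
  have hodd := (Fact.out : p.Prime).eq_two_or_odd
  obtain ⟨n, hn⟩ : ∃ n, (p - 3) / 2 = n + 1 := ⟨(p - 3) / 2 - 1, by omega⟩
  have hm : p = 2 * (n + 1 + 1) + 1 := by omega
  rw [hn]
  refine ⟨fun h3 => ?_, ?_⟩
  · exact V11306.Toep.MM_r3 h3 n hm x y z w
  · intro h1 K _ _ h2 α hα σ hσ ε hε hfund a b hab
    exact V11306.Toep.MM_r1 h1 K h2 α hα σ hσ ε hε hfund a b hab n hm x y z w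

end Pool.Agent.Results.MP_e449c6_nt.EveryPrime
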